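import Pool.Agent.H27.Diag

set_option autoImplicit false

namespace Pool.Agent.Results.MP_cd2ba9_co.Mate

open Matrix Pool.Agent.H27.Diag

/-- adjacency of `K_w ∇ m C_n`, for `n ≥ 3` -/
def adj (w m n : ℕ) : Fin w ⊕ Fin m × Fin n → Fin w ⊕ Fin m × Fin n → Prop
  | .inl a, .inl b => a ≠ b
  | .inr a, .inr b => a.1 = b.1 ∧ (SimpleGraph.cycleGraph n).Adj a.2 b.2
  | _, _ => True

/-- the multicone graph `K_w ∇ m C_n` -/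
def cone (w m n : ℕ) : SimpleGraph (Fin w ⊕ Fin m × Fin n) where
  Adj := adj w m n
  symm := ⟨by
    rintro (a | a) (b | b) h
    exacts [h.symm, trivial, trivial, ⟨h.1.symm, h.2.symm⟩]⟩
  loopless := ⟨by
    rintro (a | a) h
    exacts [h rfl, h.2.ne rfl]⟩

instance (w m n : ℕ) : DecidableRel (cone w m n).Adj
  | .inl a, .inl b => inferInstanceAs (Decidable (a ≠ b))
  | .inr a, .inr b => inferInstanceAs (Decidable (a.1 = b.1 ∧ _))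
  | .inl _, .inr _ => isTrue trivial
  | .inr _, .inl _ => isTrue trivial

def e (u v : Fin 8) : Prop := (u = 6 ∧ v < 4) ∨ (u = 7 ∧ (v < 2 ∨ v = 4 ∨ v = 5 ∨ v = 6))

def H : SimpleGraph (Fin 8) where
  Adj u v := e u v ∨ e v u
  symm := ⟨fun _ _ h => h.symm⟩
  loopless := ⟨by unfold e; decide⟩

instance : DecidableRel H.Adj := fun u v => by unfold H e; infer_instance

def ix : Fin 2 ⊕ Fin 1 × Fin 6 → Fin 8
  | .inl a => ⟨a, by omega⟩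
  | .inr a => ⟨a.2 + 2, by omega⟩

def P : Matrix (Fin 8) (Fin 8) ℤ := !![0, 0, 1, 0, 0, 0, 0, 0; 0, 0, 0, 1, 0, 0, 0, 0;
  1, -1, 0, 0, -1, -1, -1, 1; 1, 1, 0, 0, 1, 0, -1, 0; 1, -1, 0, 0, 0, 1, 0, -1;
  1, 1, 0, 0, -1, -1, 1, -1; 1, -1, 0, 0, 1, 0, 1, 0; 1, 1, 0, 0, 0, 1, 0, 1]

def Q : Matrix (Fin 8) (Fin 8) ℤ := !![0, 0, 1, 1, 1, 1, 1, 1; 0, 0, -1, 1, -1, 1, -1, 1;
  6, 0, 0, 0, 0, 0, 0, 0; 0, 6, 0, 0, 0, 0, 0, 0; 0, 0, -1, 2, -1, -1, 2, -1;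
  0, 0, -1, -1, 2, -1, -1, 2; 0, 0, -1, -2, -1, 1, 2, 1; 0, 0, 1, -1, -2, -1, 1, 2]

theorem result : ∃ (w m n : ℕ) (H : SimpleGraph (Fin 8)) (_ : DecidableRel H.Adj),
    1 ≤ w ∧ 1 ≤ m ∧ 3 ≤ n ∧ (H.adjMatrix ℝ).charpoly = ((cone w m n)ᶜ.adjMatrix ℝ).charpoly ∧
      IsEmpty (H ≃g (cone w m n)ᶜ) := by
  refine ⟨2, 1, 6, H, inferInstance, by norm_num, le_rfl, by norm_num, ?_, ⟨fun f => ?_⟩⟩
  · rw [adj_map, adj_map, cp_diag _ !![2, 0, -1, 0, -1, -1, -1, -1; 2, 0, 1, 0, 0, 0, -1, -1;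
      1, -1, 0, -1, 1, 1, -1, 0; 1, -1, 0, 1, 0, 0, -1, 0; 1, 1, 0, 0, 1, 0, 0, -1;
      1, 1, 0, 0, 0, 1, 0, -1; 3, -1, 0, 0, 0, 0, 2, 0; 3, 1, 0, 0, 0, 0, 0, 2]
      !![2, 2, 1, 1, 1, 1, 3, 3; 0, 0, -5, -5, 5, 5, -5, 5; -10, 20, -5, -5, -5, -5, 0, 0;
      -5, -5, -10, 20, 5, 5, 0, 0; -5, -5, 5, 5, 20, -10, 0, 0; -5, -5, 5, 5, -10, 20, 0, 0;
      -3, -3, -4, -4, 1, 1, 8, -2; -3, -3, 1, 1, -4, -4, -2, 8] ![3, 1, 0, 0, 0, 0, -2, -2] 30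
      (by norm_num) rfl (by decide +kernel) (by decide +kernel),
      cp_diag _ (P.submatrix ix id) (Q.submatrix id ix) ![3, 1, 0, 0, 0, 0, -2, -2] 6
      (by norm_num) rfl (by decide +kernel) (by decide +kernel)]
  · have h1 : ∀ u, ∃ v, H.Adj u v := by decide
    have h2 : ∀ v, ¬(cone 2 1 6)ᶜ.Adj (.inl 0) v := by decide
    obtain ⟨v, hv⟩ := h1 (f.symm (.inl 0))
    exact h2 (f v) (by simpa using f.map_rel_iff.2 hv)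

end Pool.Agent.Results.MP_cd2ba9_co.Mate
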